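import Pool.Agent.helper52.FS.SpecD

/-!
# MP_07c750 (quantum unique ergodicity, weight 10), PROJECT FT: the uniform frequency version of THEOREM FS, rows `ft:XXX`

THEOREM FT (`FTK_stmt`). For nonempty open sets `O_i`, `i < N`, of `X = Γ \ SL(2, ℝ)` there is `θ > 0`, the same for ALL quantum limits `μ`, such that the points `x` whose orbit spends at most the fraction `θ` of the times `[0, n]` in some `O_i` have mass at most `1/2 + o(1)` (`n → ∞`); so the points with upper frequency `< θ` have mass at most `1/2`.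
(FS is the case of the orbits which avoid `O_i`.)

PROOF. As for FS. `Ψ = vm χ n m` = the probability that at most `m` of `n` independent events of probabilities `1 - χ (g a_i)` happen, `m = θ' n`: it is affine in each `χ (g a_i)` and its partial derivatives are differences of probabilities, so `|Ψn| ≤ 2 C`, `|Ψl| ≤ 2 C e^n` as for the product. Its support is covered by the `e^(e n)` sets given by the
sets `S` of exceptional times, `|S| ≤ m`, and each of them is porous at all but `C m` of the `n` scales (`QP`). FIT is exponential in the number of the steps, and the bad scales are skipped (FIX): norm² `≤ e^(2 e n) 4 e^(-4 e n)`.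

RULES. Row `ft:XXX` (problem MP_07c750_an): file `Pool/Agent/<seat>/FT/XXX.lean`, `import Pool.Agent.helper71.FT.Spec` (and what you need), `set_option autoImplicit false`, namespace `Pool.Agent.FT`, auxiliary lemmas prefixed `XXX_`, theorem `XXX_proof (h : YYY_stmt) .. : XXX_stmt` with the rows listed in `from` as hypotheses (unused ones dropped; proved rows of other
projects may be used by their `A_` theorems instead). No straight double quotes, no `convert`, `congr!`, `native_decide`. A false or doubtful statement: message to helper71 at once.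
-/

open scoped MatrixGroups ContDiff Topology UpperHalfPlane ComplexConjugate
open UpperHalfPlane MeasureTheory Filter Set

set_option autoImplicit false

namespace Pool.Agent.FT

open Pool.Agent.RS
open Pool.Agent.MS (bq BB BA SF pf)
open Pool.Agent.EN (XG MG mkX mkM fl pr)
open Pool.Agent.FS (tp)

noncomputable section

/-! ## P. The pure part -/

/-- **Row FIX** (FIT with a set `S` of good steps; medium; from FS.LSM, FS.MUL, FS.CUT, FS.PAR; the proof of FIT: helper69/FS/FIT.lean when it is there). `Finset.induction_on_max` over `S` (or over all `t`, with `F_t = F_(t-1)` for `t ∉ S`): the trigonometric sum `F_S` has its frequencies within `Σ_(s ∈ S) B H^s ≤ 2 B H^(t-1)` of `J` if all `s < t`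
(`0` if `S` is empty), `‖F_S(v)‖ ≥ (1 - τ)^|S| ‖f(v)‖` on `Y ∩ [0,1]`, `∫_0^4 ‖F_S‖² ≤ (1 - 1/(2K))^|S| ∫_0^4 ‖f‖²`. The step `t` uses only the hypotheses for this `t` (`M = H^t`, LSM for `c' = c/4`, `R2 = 1`: scales in `[M, R1 M]`). `(1 - τ)^(-2) (1 - 1/(2K)) ≤ θ = 1 - 1/(4K)`. -/
def FIX_stmt : Prop := ∀ c : ℝ, 0 < c → c < 1 → ∃ (θ R1 : ℝ) (H : ℕ), 0 < θ ∧ θ < 1 ∧ 1 ≤ R1 ∧ 2 ≤ H ∧ ∀ (S : Finset ℕ) (Y : Set ℝ) (J : Finset ℤ) (a : ℤ → ℂ), MeasurableSet Y →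
  (∀ t ∈ S, ∀ v : ℝ, ∃ x ∈ Icc v (v + 1 / ((H ^ t : ℕ) : ℝ)), Disjoint (Ioo (x - c / ((H ^ t : ℕ) : ℝ)) (x + c / ((H ^ t : ℕ) : ℝ))) Y) →
  (∀ t ∈ S, ∀ R : ℝ, (H : ℝ) ^ t ≤ R → R ≤ R1 * (H : ℝ) ^ t → ∀ ξ : ℝ, ∃ y ∈ Icc ξ (ξ + R), ∀ j ∈ J, c * R ≤ |Real.pi * j / 2 - y|) →
    ∫ v in Y ∩ Icc 0 1, ‖tp J a v‖ ^ 2 ≤ 4 * θ ^ S.card * ∑ j ∈ J, ‖a j‖ ^ 2

/-- porous (constant `c`) at all the scales `e^(-k)`, `k < n`, but at most `e n` -/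
def PQ (c e : ℝ) (n : ℕ) (Y : Set ℝ) : Prop := ∃ B : Finset ℕ, (B.card : ℝ) ≤ e * n ∧ ∀ k : ℕ, k < n → k ∉ B → ∀ r : ℝ, Real.exp (-((k : ℝ) + 1)) ≤ r → r ≤ Real.exp (-(k : ℝ)) → ∀ v : ℝ, ∃ x ∈ Icc v (v + r), Disjoint (Ioo (x - c * r) (x + c * r)) Y

/-- covered by at most `e^(e n)` sets with the property `PQ` -/
def QP (c e : ℝ) (n : ℕ) (U : Set ℝ) : Prop := ∃ YY : Finset (Set ℝ), (YY.card : ℝ) ≤ Real.exp (e * n) ∧ (U ⊆ ⋃ Y ∈ YY, Y) ∧ ∀ Y ∈ YY, PQ c e n Y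

/-- **Row FUS** (one pair; medium; from FIX). FIX for `c/4`: `θ, R1, H`. `B` (for `Y`), `B'` (for `Z`). `S` = the `t` with `t0 ≤ t`, `R1 H^t ≤ e^n`, `H^t < e^n`, `⌊t log H⌋ ∉ B`, and with no `b ∈ B'` such that `b ≤ n + L - log R ≤ b + 1` for some `R ∈ [H^t, R1 H^t]`; `L = log (π/(2 κ0)) > 0`. `t0` (depends on `c`, `κ0`): `H^t0 ≥ 11/c`,
`H^t0 > π/(2 κ0)`. For each `b` at most `C` (depends on `R1`, `H`) values of `t` are excluded. So `|S| ≥ n/log H - C(κ0) - C e n ≥ n/(2 log H)` for small `ε`, `n` large; and `ε ≤ log(1/θ)/(8 log H)`: `θ^|S| ≤ e^(-4 ε n)`. `Y`: `r = H^(-t)`, `k = ⌊t log H⌋ < n`.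
`J`: `r = R · 2 εc/π`, `- log r = n + L - log R ∈ (0, n)`, `k = ⌊- log r⌋`; `v = ξ · 2 εc/π`, `x` from PQ, `y = x π/(2 εc)`: if `|π j/2 - y| < (c/4) R` then `|j εc - x| < (c/4) r`, and `|z - x| < (c/4) r + 5 εc ≤ c r` (`R ≥ 11/c`): contradiction. -/
def FUS_stmt : Prop := ∀ c : ℝ, 0 < c → c < 1 → ∃ ε : ℝ, 0 < ε ∧ ∀ κ0 : ℝ, 0 < κ0 → κ0 ≤ 1 → ∃ n0 : ℕ, ∀ (n : ℕ) (Y Z : Set ℝ) (J : Finset ℤ) (a : ℤ → ℂ) (εc : ℝ), n0 ≤ n → εc = κ0 * Real.exp (-(n : ℝ)) → MeasurableSet Y → PQ c ε n Y → PQ c ε n Z →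
  (∀ j ∈ J, ∃ z ∈ Z, |z - j * εc| ≤ 5 * εc) → ∫ v in Y ∩ Icc 0 1, ‖tp J a v‖ ^ 2 ≤ 4 * Real.exp (-(4 * ε * n)) * ∑ j ∈ J, ‖a j‖ ^ 2

/-- **Row FUQ** (the union; short-medium; from FUS). `Ioo` is open, so `PQ` for `Y` gives `PQ` for `closure Y` (closed, measurable). `J` = the disjoint union of the `J_Z'`, `Z'` in the family of `Z` (choose one for each `j`); `|Σ_Z' f_Z'|² ≤ q Σ_Z' |f_Z'|²`, `q = e^(ε n)`; `∫_(U ∩ [0,1]) ≤ Σ_Y ∫_(closure Y ∩ [0,1])` (nonnegative, continuous integrand).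
Total: `q² · 4 e^(-4 ε n) ≤ 4 e^(-2 ε n) ≤ Q`. -/
def FUQ_stmt : Prop := ∀ c : ℝ, 0 < c → c < 1 → ∃ ε : ℝ, 0 < ε ∧ ∀ κ0 Q : ℝ, 0 < κ0 → κ0 ≤ 1 → 0 < Q → ∃ n0 : ℕ, ∀ (n : ℕ) (U Z : Set ℝ) (J : Finset ℤ) (a : ℤ → ℂ) (εc : ℝ), n0 ≤ n → εc = κ0 * Real.exp (-(n : ℝ)) → QP c ε n U → QP c ε n Z →
  (∀ j ∈ J, ∃ z ∈ Z, |z - j * εc| ≤ 5 * εc) → ∫ v in U ∩ Icc 0 1, ‖tp J a v‖ ^ 2 ≤ Q * ∑ j ∈ J, ‖a j‖ ^ 2

/-- **Row EXB** (counting; short; pure). `x = min 1 (ε/2)`: the number is `≤ Σ_S x^(|S| - m) = x^(-m) (1 + x)^n` (all subsets `S`; `x ≤ 1`), `(1 + x)^n ≤ e^(ε n/2)`, `x^(-m) = e^(m log(1/x)) ≤ e^(ε n/2)` for `m ≤ θ n`, `θ = ε/(2 (log(1/x) + 1))`. -/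
def EXB_stmt : Prop := ∀ ε : ℝ, 0 < ε → ∃ θ : ℝ, 0 < θ ∧ ∀ n m : ℕ, (m : ℝ) ≤ θ * n → (((Finset.range n).powerset.filter fun S : Finset ℕ => S.card ≤ m).card : ℝ) ≤ Real.exp (ε * n)

/-! ## D. Dynamics -/

/-- **Row POT** (porosity, with the times; short-medium; from FS.UDP, RS.GLC, EN.XFL; the proof of FS.POR: helper53/FS/POR.lean when it is there). `T ≥` the one of UDP for the smaller open set `O3` of POR, `c = min (1/2) (c1 e^(-T))`. `g lM v aM s lM u aM t' = g lM(v + e^(-s) u) aM(s + t')`, `t = s + t'`. -/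
def POT_stmt : Prop := ∀ (Γ : Subgroup SL(2, ℝ)) (O : Set (XG Γ)), QU.SurfaceGroup Γ → IsOpen O → O.Nonempty → ∃ (c : ℝ) (T : ℕ), 0 < c ∧ c < 1 ∧ ∀ (g : SL(2, ℝ)) (s v : ℝ), 0 ≤ s →
  (∃ x ∈ Icc v (v + Real.exp (-s)), ∀ w ∈ Ioo (x - c * Real.exp (-s)) (x + c * Real.exp (-s)), ∃ t ∈ Icc s (s + T), mkX Γ (g * lM w * aM t) ∈ O) ∧
  ∃ x ∈ Icc v (v + Real.exp (-s)), ∀ z ∈ Ioo (x - c * Real.exp (-s)) (x + c * Real.exp (-s)), ∃ t ∈ Icc s (s + T), mkX Γ (g * nM z * aM (-t)) ∈ O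

/-- the probability that at most `m` of `n` independent events of probabilities `1 - χ (g a_i)`, `i < n`, happen -/
def vm (χ : SL(2, ℝ) → ℝ) : ℕ → ℕ → SL(2, ℝ) → ℝ
  | 0, _, _ => 1
  | n + 1, 0, g => χ (g * aM (n : ℝ)) * vm χ n 0 g
  | n + 1, m + 1, g => χ (g * aM (n : ℝ)) * vm χ n (m + 1) g + (1 - χ (g * aM (n : ℝ))) * vm χ n m g

/-- **Row VMB** (short; pure induction over `n`). -/
def VMB_stmt : Prop := ∀ (χ : SL(2, ℝ) → ℝ) (n m : ℕ) (g : SL(2, ℝ)), (∀ h, 0 ≤ χ h ∧ χ h ≤ 1) → 0 ≤ vm χ n m g ∧ vm χ n m g ≤ 1 ∧ vm χ n m g ≤ vm χ n (m + 1) g ∧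
  (((Finset.range n).filter fun i : ℕ => χ (g * aM (i : ℝ)) ≠ 1).card ≤ m → vm χ n m g = 1) ∧ (vm χ n m g ≠ 0 → ((Finset.range n).filter fun i : ℕ => χ (g * aM (i : ℝ)) = 0).card ≤ m)

/-- **Row VMS** (the derivatives; short-medium; from IR.SFP, VMB). Induction over `n` (all `m`), with the bounds `C Σ_(i<n) e^(-i)` and `C Σ_(i<n) e^i` (`SF` is closed under sums). `u A + (1 - u) B`, `u = χ (g aM n)`: the derivative is `u' (A - B) + u A' + (1 - u) B'`, `|A - B| ≤ 1`. -/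
def VMS_stmt : Prop := ∀ (Γ : Subgroup SL(2, ℝ)) (C : ℝ) (χ χa χn χl : SL(2, ℝ) → ℝ) (n m : ℕ), 1 ≤ C → SF Γ χ χa χn χl → (∀ g, 0 ≤ χ g ∧ χ g ≤ 1) → (∀ g, |χn g| ≤ C) → (∀ g, |χl g| ≤ C) →
  ∃ Ψa Ψn Ψl : SL(2, ℝ) → ℝ, SF Γ (vm χ n m) Ψa Ψn Ψl ∧ (∀ g, |Ψn g| ≤ 2 * C) ∧ ∀ g, |Ψl g| ≤ 2 * C * Real.exp n

/-- **Row PGN** (number of visits and time; short-medium; from EN.XFL, RS.GLC). `y0 ∈ O`; `O1 ∋ y0` open and `0 < η ≤ 1` with `fl s x ∈ O` for `x ∈ O1`, `|s| ≤ η` (continuity of `(s, x) ↦ fl s x`). `D` = the set of times. `i ∈ S`, `5 ≤ i ≤ n - 5`: `D ∩ [i - 5, i + 5]` contains an interval of length `2η`; each `t` is in at most `11` of these windows: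
`2 η |S'| ≤ 11 |D|`; `|S| ≤ |S'| + 10`. `A = max 10 (11/(2 η))`. -/
def PGN_stmt : Prop := ∀ (Γ : Subgroup SL(2, ℝ)) (O : Set (XG Γ)), QU.SurfaceGroup Γ → IsOpen O → O.Nonempty → ∃ (O1 : Set (XG Γ)) (A : ℝ), IsOpen O1 ∧ O1.Nonempty ∧ 1 ≤ A ∧ ∀ (n : ℕ) (g : SL(2, ℝ)) (S : Finset ℕ), (∀ i ∈ S, i < n ∧ ∃ s : ℝ, |s| ≤ 4 ∧ mkX Γ (g * aM (i : ℝ) * aM s) ∈ O1) →
  (S.card : ℝ) ≤ A * (volume.real {t : ℝ | t ∈ Icc (0 : ℝ) n ∧ fl Γ t (mkX Γ g) ∈ O} + 1)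

/-- **Row PGF** (forward; short-medium; from POT, EXB). `c, T` from POT for `O'`. The sets `Y_S = {w | ∀ i < n, i ∉ S → χ (g lM w aM i) ≠ 0}`, `S ⊆ range n`, `|S| ≤ m` (image of the filtered powerset). `B_S` = the `k < n` with `n ≤ k + T + 1` or with some `i ∈ S`, `k ≤ i ≤ k + T + 1`: at most `(T + 2)(m + 1) ≤ e n`.
`k ∉ B_S`, `r = e^(-s)`, `s ∈ [k, k + 1]`: `x` from POT, `w`, `t ∈ [s, s + T]`, `i = ⌊t⌋₊ ∈ [k, k + T + 1]`: `χ (g lM w aM i) = χ ((g lM w aM t) aM (i - t)) = 0` (`o = 0`), so `w ∉ Y_S`. -/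
def PGF_stmt : Prop := ∀ (Γ : Subgroup SL(2, ℝ)) (O' : Set (XG Γ)) (c0 : ℝ) (χ : SL(2, ℝ) → ℝ), QU.SurfaceGroup Γ → IsOpen O' → O'.Nonempty → 0 < c0 → (∀ (k : SL(2, ℝ)) (s o : ℝ), mkX Γ k ∈ O' → |s| ≤ 3 → |o| ≤ c0 → χ (k * aM s * lM o) = 0) →
  ∃ c : ℝ, 0 < c ∧ c < 1 ∧ ∀ e : ℝ, 0 < e → ∃ (θ : ℝ) (n0 : ℕ), 0 < θ ∧ ∀ n m : ℕ, n0 ≤ n → (m : ℝ) ≤ θ * n → ∀ g : SL(2, ℝ), QP c e n {w : ℝ | ((Finset.range n).filter fun i : ℕ => χ (g * lM w * aM (i : ℝ)) = 0).card ≤ m}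

/-- **Row PGB** (backward; short-medium; from POT, EXB, RS.GLC). `c = min c0` (the one of POT). `Z_S = {z | ∃ τ o, |τ| ≤ 7/10, |o| ≤ c, ∀ i < n, i ∉ S → χ (g nM z aM τ lM o aM(-n) aM i) ≠ 0}`. `B_S` = the `k < n` with `n < k + T + 2` or with some `i ∈ S`, `n ≤ i + k + T + 2`, `i + k + 1 ≤ n`: at most `(T + 2)(m + 1)`. `k ∉ B_S`, `r = e^(-s)`, `s ∈ [k, k+1]`:
`x` from POT, `z`, `t ∈ [s, s + T]`, `m' = ⌊t⌋₊ + 1 ∈ [k + 1, k + T + 2]`, `i = n - m'`: `g nM z aM τ lM o aM(-n) aM i = g nM z aM τ lM o aM(-m') = (g nM z aM(-t)) aM(t + τ - m') lM(e^(-m') o)`, `|t + τ - m'| ≤ 17/10`. -/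
def PGB_stmt : Prop := ∀ (Γ : Subgroup SL(2, ℝ)) (O' : Set (XG Γ)) (c0 : ℝ) (χ : SL(2, ℝ) → ℝ), QU.SurfaceGroup Γ → IsOpen O' → O'.Nonempty → 0 < c0 → (∀ (k : SL(2, ℝ)) (s o : ℝ), mkX Γ k ∈ O' → |s| ≤ 3 → |o| ≤ c0 → χ (k * aM s * lM o) = 0) →
  ∃ c : ℝ, 0 < c ∧ c < 1 ∧ ∀ e : ℝ, 0 < e → ∃ (θ : ℝ) (n0 : ℕ), 0 < θ ∧ ∀ n m : ℕ, n0 ≤ n → (m : ℝ) ≤ θ * n → ∀ g : SL(2, ℝ),
    QP c e n {z : ℝ | ∃ τ o : ℝ, |τ| ≤ 7 / 10 ∧ |o| ≤ c ∧ ((Finset.range n).filter fun i : ℕ => χ (g * nM z * aM τ * lM o * aM (-(n : ℝ)) * aM (i : ℝ)) = 0).card ≤ m}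

/-- a smooth function whose support is covered by few sets which are porous at most scales, along the leaves, in the future (`fw`) and, translated by `aM n`, in the past (`bw`) -/
structure PG (Γ : Subgroup SL(2, ℝ)) (c C3 e : ℝ) (n : ℕ) (Ψ Ψa Ψn Ψl : SL(2, ℝ) → ℝ) : Prop where
  sf : SF Γ Ψ Ψa Ψn Ψl
  nn : ∀ g, 0 ≤ Ψ g ∧ Ψ g ≤ 1
  bn : ∀ g, |Ψn g| ≤ C3
  bl : ∀ g, |Ψl g| ≤ C3 * Real.exp n
  fw : ∀ g : SL(2, ℝ), QP c e n {w : ℝ | Ψ (g * lM w) ≠ 0}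
  bw : ∀ g : SL(2, ℝ), QP c e n {z : ℝ | ∃ τ o : ℝ, |τ| ≤ 7 / 10 ∧ |o| ≤ c ∧ Ψ (g * nM z * aM τ * lM o * aM (-(n : ℝ))) ≠ 0}

/-- **Row PGO** (one open set; short; from FS.CHF, PGN, VMB, VMS, PGF, PGB). `O1, A` from PGN, `O', c0, C, χ` from CHF for `O1`, `c` = the minimum of the two (QP is monotone: smaller `c`, smaller set), `C3 = 2 C`, `θ'` = the minimum of the two, `m = ⌊θ' n⌋₊`, `Ψ = vm χ n m`, `θ = θ'/(2A)`: if `x = mkX g` and the time is `≤ θ n`,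
then `χ (g aM i) ≠ 1` for at most `A (θ n + 1) ≤ θ' n - 1 ≤ m` values of `i` (`n ≥ n0`). -/
def PGO_stmt : Prop := ∀ (Γ : Subgroup SL(2, ℝ)) (O : Set (XG Γ)), QU.SurfaceGroup Γ → IsOpen O → O.Nonempty → ∃ c C3 : ℝ, 0 < c ∧ c < 1 ∧ 1 ≤ C3 ∧ ∀ e : ℝ, 0 < e → ∃ (θ : ℝ) (n0 : ℕ), 0 < θ ∧ ∀ n : ℕ, n0 ≤ n →
  ∃ Ψ Ψa Ψn Ψl : SL(2, ℝ) → ℝ, PG Γ c C3 e n Ψ Ψa Ψn Ψl ∧ ∀ x : XG Γ, volume.real {t : ℝ | t ∈ Icc (0 : ℝ) n ∧ fl Γ t x ∈ O} ≤ θ * n → x ∈ IR.one Γ Ψ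

/-- **Row PGK** (finitely many open sets; short-medium; from PGO, IR.SFP). Induction over `N`; `N = 0`: `Ψ = 0`. Step: `Ψ = 1 - (1 - Ψ1)(1 - Ψ2)`; `c` = the minimum, `C3 = C1 + C2`; both for `e/2`: the union of the two families has at most `2 e^(e n/2) ≤ e^(e n)` members for `n ≥ 2/e`. -/
def PGK_stmt : Prop := ∀ (Γ : Subgroup SL(2, ℝ)), QU.SurfaceGroup Γ → ∀ (N : ℕ) (O : ℕ → Set (XG Γ)), (∀ i < N, IsOpen (O i) ∧ (O i).Nonempty) → ∃ c C3 : ℝ, 0 < c ∧ c < 1 ∧ 1 ≤ C3 ∧ ∀ e : ℝ, 0 < e → ∃ (θ : ℝ) (n0 : ℕ), 0 < θ ∧ ∀ n : ℕ, n0 ≤ n →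
  ∃ Ψ Ψa Ψn Ψl : SL(2, ℝ) → ℝ, PG Γ c C3 e n Ψ Ψa Ψn Ψl ∧ ∀ x : XG Γ, (∃ i < N, volume.real {t : ℝ | t ∈ Icc (0 : ℝ) n ∧ fl Γ t x ∈ O i} ≤ θ * n) → x ∈ IR.one Γ Ψ

/-- **Row LGP** (the leaf condition; short-medium; from FUQ, RS.GLC; compare FS.FQP, FS.LFP). `e` = the `ε` of FUQ. `lM(l u) nM z = nM z' aM t' lM w'`, `1 + l u z = e^(-t'/2)`, `z' = z/(1 + l u z)`, `w' = l u/(1 + l u z)`; so for `j ∈ J` (`z = j εc + x`): `sg g lM(l u) nM z aM τ lM o = (sg g) nM z' aM(τ + t') lM(e^τ w' + o)` with `|z' - j εc| ≤ 5 εc`,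
`|τ + t'| ≤ 7/10`, `|e^τ w' + o| ≤ c` (`εc ≤ c`, `εc ≤ 1/100`, `n ≥ n0`). `J_1` = the `j` with the sign `1`, `J_2` = the others; FUQ for `Q/4` with `U = {v | Ψ (g' lM v) ≠ 0}` and `Z` = the set `bw` for `± g`; `|f1 + f2|² ≤ 2|f1|² + 2|f2|²`. -/
def LGP_stmt : Prop := ∀ (Γ : Subgroup SL(2, ℝ)) (c C3 : ℝ), 0 < c → c < 1 → 1 ≤ C3 → ∃ e : ℝ, 0 < e ∧ ∀ κ0 Q : ℝ, 0 < κ0 → κ0 ≤ 1 → 0 < Q → ∃ n0 : ℕ, ∀ (n : ℕ) (Ψ Ψa Ψn Ψl Ψ' Ψa' Ψn' Ψl' : SL(2, ℝ) → ℝ) (εc : ℝ), n0 ≤ n →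
  PG Γ c C3 e n Ψ Ψa Ψn Ψl → PG Γ c C3 e n Ψ' Ψa' Ψn' Ψl' → εc = κ0 * Real.exp (-(n : ℝ)) → IR.LFC Ψ Ψ' n εc (εc / 100) Q

/-- **Row FTK** (THE THEOREM; short-medium; from PGK, LGP). `c, C3` from PGK, `e` from LGP, `θ` from PGK for this `e`: before `μ`, `K`. `0 < d ≤ 1`: `δ = (d/200)²`, `κ0 = π δ/(8 K C3) ≤ 1`, `Q = δ²/128`, `n ≥ n0`: GP with `Ψ' = Ψ`, `B' = C3 e^n`, `l0 = εc/100`: `2 μ (one Ψ) ≤ 1 + d`. Second: the set is the increasing union over `M` of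
`∩_(n ≥ M) {x | ∃ i < N, ..}`-subsets (for each `i`; finitely many `i`: `∃ i, ∀ n ≥ M` implies `∀ n ≥ M, ∃ i`), each of outer measure `≤ 1/2 + d` for all `d > 0` (`Monotone.measure_iUnion`). -/
def FTK_stmt : Prop := ∀ (Γ : Subgroup SL(2, ℝ)), QU.SurfaceGroup Γ → ∀ (N : ℕ) (O : ℕ → Set (XG Γ)), (∀ i < N, IsOpen (O i) ∧ (O i).Nonempty) → ∃ θ : ℝ, 0 < θ ∧ ∀ (μ : Measure (XG Γ)) (K : ℝ), IsProbabilityMeasure μ → 1 ≤ K → IR.GP Γ μ K →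
  (∀ d : ℝ, 0 < d → ∃ n0 : ℕ, ∀ n : ℕ, n0 ≤ n → μ {x : XG Γ | ∃ i < N, volume.real {t : ℝ | t ∈ Icc (0 : ℝ) n ∧ fl Γ t x ∈ O i} ≤ θ * n} ≤ ENNReal.ofReal (1 / 2 + d)) ∧
  μ {x : XG Γ | ∃ i < N, ∀ᶠ n : ℕ in atTop, volume.real {t : ℝ | t ∈ Icc (0 : ℝ) n ∧ fl Γ t x ∈ O i} ≤ θ * n} ≤ 1 / 2

end

end Pool.Agent.FT
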